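import Pool.Agent.H164R3.FpMain

set_option autoImplicit false

open Pool.Agent.H164R3.Fp

/-- **The intersection property of Lipschitz free `p`-spaces.**  Let `0 < p ≤ 1`, let `M` be a
complete metric space with base point `o`, and let `(X, N)`, `δ : M → X` be its Lipschitz free
`p`-space (`IsFree`: given by the universal property, `N` the `p`-norm).  For `K ⊆ M` let
`FSub N δ K` be the closed linear span of `δ(K)`.
(1) For every family of closed sets `K_k ⊆ M` (in particular for every decreasing sequence) a
vector which is in `F_p(K_k; M)` for every `k` is in `F_p(⋂ K_k; M)`.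
(2) For every `K ⊆ M`, a vector is in `F_p(K; M)` if and only if it is annihilated by every bounded
linear functional which vanishes on `δ(K)`. -/
theorem Pool.Agent.Results.MP_259edd_an.IntersectionProperty.result
    (p : ℝ) (hp : 0 < p) (hp1 : p ≤ 1) (M : Type) [MetricSpace M] [CompleteSpace M] (o : M)
    (X : Type) [AddCommGroup X] [Module ℝ X] (N : X → ℝ) (δ : M → X) (h : IsFree p o N δ) :
    (∀ (κ : Type) (K : κ → Set M), (∀ k, IsClosed (K k)) →
      (⋂ k, FSub N δ (K k)) ⊆ FSub N δ (⋂ k, K k)) ∧
    (∀ (K : Set M) (γ : X), γ ∈ FSub N δ K ↔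
      ∀ T : X →ₗ[ℝ] ℝ, (∃ C, ∀ v, |T v| ≤ C * N v) → (∀ x ∈ K, T (δ x) = 0) → T γ = 0) :=
  intersection hp hp1 o N δ h
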